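import Pool.Agent.MP_8b9c46_al.Tower

set_option autoImplicit false

/-!
From chains over a field to words in circle maps.
-/

namespace Pool.Agent.MP_8b9c46_al

open Polynomial ComplexConjugate

theorem Chain.pi {ι : Type*} : ∀ {r : List Step} {f g : ι → ℂ}, (∀ i, Chain r (f i) (g i)) →
    Chain r f g
  | [], _, _, h => funext fun i => h i
  | _ :: _, _, _, h => by
      choose y h1 h2 using h
      exact ⟨y, Chain.pi h1, funext fun i => h2 i⟩

theorem infinite_circle : Infinite Circle := by
  have : Infinite (Set.Ioo (0 : ℝ) 1) := Set.Ioo.infinite (by norm_num)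
  refine Infinite.of_injective (fun t : Set.Ioo (0 : ℝ) 1 => Circle.exp t) ?_
  intro s t hst
  have hpi := Real.pi_gt_three
  have := Circle.exp_injOn_Ico (a := 0) (b := 1) (by linarith) ⟨s.2.1.le, s.2.2⟩
    ⟨t.2.1.le, t.2.2⟩ hst
  exact Subtype.ext this

/-- A nonempty alternating chain of correspondences cannot be realised by a rotation at every
point of the circle. -/
theorem not_forall_chain (k l : ℕ) (hk : 0 < k) (hl : 0 < l) (hne : k ≠ l) (r : List Step)
    (hr : r ≠ []) (hA : Alt k l r) (c : ℂ) :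
    ¬ ∀ z : Circle, Chain r (z : ℂ) (c * z) := by
  intro h
  have := infinite_circle
  have h1 : Chain r (fun z : Circle => (z : ℂ)) (fun z : Circle => c * z) := Chain.pi h
  set U : Ultrafilter Circle := Filter.hyperfilter Circle with hU
  let alg : Algebra ℂ (Filter.Germ (U : Filter Circle) ℂ) :=
    ((Filter.Germ.coeRingHom (U : Filter Circle)).comp (Pi.constRingHom Circle ℂ)).toAlgebra
  let φ : (Circle → ℂ) →ₐ[ℂ] Filter.Germ (U : Filter Circle) ℂ :=
    { Filter.Germ.coeRingHom (U : Filter Circle) with commutes' := fun _ => rfl }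
  have h2 := h1.map φ
  have ht : Transcendental ℂ (φ (fun z : Circle => (z : ℂ))) := by
    rintro ⟨p, hp, hp0⟩
    rw [aeval_algHom_apply] at hp0
    have h3 : (aeval (fun z : Circle => (z : ℂ)) p : Circle → ℂ) =ᶠ[(U : Filter Circle)] 0 :=
      Filter.Germ.coe_eq.mp hp0
    have h4 : {z : Circle | p.eval (z : ℂ) = 0} ∈ U := by
      refine Filter.mem_of_superset h3 ?_
      intro z hz
      have h5 : (aeval (fun z : Circle => (z : ℂ)) p : Circle → ℂ) z = p.eval (z : ℂ) := by
        simp
      simpa [h5] using hz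
    have h6 : {z : Circle | p.eval (z : ℂ) = 0}.Finite := by
      have h7 : {x : ℂ | p.IsRoot x}.Finite := finite_setOfPred_isRoot hp
      exact h7.preimage (Circle.coe_injective.injOn)
    exact h6.notMem_hyperfilter h4
  refine chain_ne k l hk hl hne r hr hA _ _ ht h2 c ?_
  rw [← φ.commutes c, ← map_mul]
  rfl

theorem circle_den_ne_zero {a b : ℂ} (hab : Complex.normSq a - Complex.normSq b = 1) (n : ℕ)
    (z : Circle) : conj b * (z : ℂ) ^ n + conj a ≠ 0 := by
  intro h0
  have h1 : conj a = -(conj b * (z : ℂ) ^ n) := by linear_combination h0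
  have h2 := congrArg norm h1
  simp only [RCLike.norm_conj, norm_neg, norm_mul, norm_pow, Circle.norm_coe, one_pow,
    mul_one] at h2
  have := norm_lt_of_normSq hab
  linarith

theorem RelP.trans {a b a' b' U V W : ℂ} (h : RelP a b U V)
    (h' : RelP a' b' V W) : RelP (a' * a + b' * conj b) (a' * b + b' * conj a) U W := by
  unfold RelP at *
  simp only [Algebra.algebraMap_self, RingHom.id_apply, map_add, map_mul, Complex.conj_conj] at *
  linear_combination (conj b * U + conj a) * h' - (W * conj b' - a') * h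

/-- The group of continuous lifts of disc automorphisms through the `n`-th power map. -/
def liftGroup (n : ℕ) : Subgroup (Equiv.Perm Circle) where
  carrier := {F | Continuous F ∧ ∃ a b : ℂ, Complex.normSq a - Complex.normSq b = 1 ∧
    ∀ z : Circle, RelP a b ((z : ℂ) ^ n) ((F z : ℂ) ^ n)}
  one_mem' := ⟨continuous_id, 1, 0, by simp, fun z => by simp [RelP]⟩
  mul_mem' := by
    rintro F G ⟨hF, a', b', hab', hF'⟩ ⟨hG, a, b, hab, hG'⟩
    refine ⟨hF.comp hG, a' * a + b' * conj b, a' * b + b' * conj a, ?_, fun z => ?_⟩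
    · have : Complex.normSq (a' * a + b' * conj b) - Complex.normSq (a' * b + b' * conj a) =
          (Complex.normSq a' - Complex.normSq b') * (Complex.normSq a - Complex.normSq b) := by
        simp only [Complex.normSq_apply, Complex.add_re, Complex.add_im, Complex.mul_re,
          Complex.mul_im, Complex.conj_re, Complex.conj_im]
        ring
      rw [this, hab, hab', one_mul]
    · exact (hG' z).trans (hF' (G z))
  inv_mem' := by
    rintro F ⟨hF, a, b, hab, hF'⟩
    refine ⟨hF.continuous_symm_of_equiv_compact_to_t2, conj a, -b, by simpa using hab,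
      fun z => ?_⟩
    have := (hF' (F⁻¹ z)).symm
    simpa using this

theorem rot_mem_liftGroup (n : ℕ) (F : Equiv.Perm Circle) (c : Circle)
    (h : ∀ z, F z = c * z) : F ∈ liftGroup n := by
  obtain ⟨a, ha⟩ := IsAlgClosed.exists_pow_nat_eq ((c : ℂ) ^ n) (by norm_num : 0 < 2)
  have ha1 : ‖a‖ = 1 := by
    have h1 : ‖a‖ ^ 2 = 1 := by rw [← norm_pow, ha]; simp [Circle.norm_coe]
    have := norm_nonneg a
    nlinarith
  have hn : Complex.normSq a = 1 := by rw [Complex.normSq_eq_norm_sq, ha1]; simp
  refine ⟨?_, a, 0, by simp [hn], fun z => ?_⟩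
  · have : (F : Circle → Circle) = fun z => c * z := funext h
    rw [this]
    fun_prop
  · unfold RelP
    have h2 : a * conj a = 1 := by rw [Complex.mul_conj, hn]; simp
    simp only [Algebra.algebraMap_self, RingHom.id_apply, map_zero, zero_mul, zero_add, add_zero,
      h, Circle.coe_mul, mul_pow, ← ha]
    linear_combination a * (z : ℂ) ^ n * h2

theorem exists_step_of_not_rot (n : ℕ) (hn : 0 < n) (F : Equiv.Perm Circle)
    (hF : F ∈ liftGroup n) (hrot : ¬ ∃ c : Circle, ∀ z, F z = c * z) :
    ∃ s : Step, s.κ = n ∧ s.Valid ∧ ∀ z : Circle, Rel s (z : ℂ) (F z : ℂ) := by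
  obtain ⟨hF, a, b, hab, hF'⟩ := hF
  refine ⟨⟨n, a, b⟩, rfl, ⟨hab, ?_⟩, hF'⟩
  intro hb
  simp only at hb
  subst hb
  apply hrot
  have ha : conj a ≠ 0 := by
    have := circle_den_ne_zero hab n 1
    simpa using this
  have hT : {w : Circle | (w : ℂ) ^ n = a / conj a}.Finite := by
    have h7 : {x : ℂ | (X ^ n - C (a / conj a) : ℂ[X]).IsRoot x}.Finite :=
      finite_setOfPred_isRoot (X_pow_sub_C_ne_zero hn _)
    refine (h7.preimage (Circle.coe_injective.injOn)).subset ?_
    intro w hw
    have hw' : (w : ℂ) ^ n = a / conj a := hw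
    simpa [sub_eq_zero] using hw'
  have hmaps : Set.MapsTo (fun z : Circle => F z / z) Set.univ
      {w : Circle | (w : ℂ) ^ n = a / conj a} := by
    intro z _
    have h1 := hF' z
    unfold RelP at h1
    simp only [Algebra.algebraMap_self, RingHom.id_apply, map_zero, zero_mul, zero_add,
      add_zero] at h1
    have hz : (z : ℂ) ^ n ≠ 0 := pow_ne_zero _ (Circle.coe_ne_zero z)
    simp only [Set.mem_ofPred_eq, Circle.coe_div, div_pow]
    rw [div_eq_div_iff hz ha]
    exact h1
  refine ⟨F 1, fun z => ?_⟩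
  have := isPreconnected_univ.constant_of_mapsTo hT.isDiscrete
    (f := fun z : Circle => F z / z) (by fun_prop) hmaps (Set.mem_univ z) (Set.mem_univ 1)
  simp only [div_one] at this
  rw [← this, div_mul_cancel]

/-- The list of steps of an alternating word. -/
theorem exists_steps (k l : ℕ) (hk : 0 < k) (hl : 0 < l) :
    ∀ (L : List (Bool × Equiv.Perm Circle)) (i : Bool),
      (∀ p ∈ L, p.2 ∈ liftGroup (cond p.1 k l) ∧ ¬ ∃ c : Circle, ∀ z, p.2 z = c * z) →
      L.IsChain (fun p q => p.1 ≠ q.1) → (∀ p ∈ L.head?, p.1 = i) →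
      ∃ r : List Step, r.length = L.length ∧ Alt (cond i k l) (cond i l k) r ∧
        ∀ z : Circle, Chain r (z : ℂ) ((L.map Prod.snd).prod z : ℂ)
  | [], _, _, _, _ => ⟨[], rfl, trivial, fun _ => rfl⟩
  | p :: L, i, hL, hc, hi => by
      have hpi : p.1 = i := hi p (by simp)
      obtain ⟨r, hr, hA, hch⟩ := exists_steps k l hk hl L (!i)
        (fun q hq => hL q (List.mem_cons_of_mem _ hq)) hc.tail (by
          intro q hq
          have := hc.rel_head? hq
          rw [hpi] at this
          cases hq1 : q.1 <;> cases i <;> simp_all)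
      obtain ⟨h1, h2⟩ := hL p List.mem_cons_self
      rw [hpi] at h1
      obtain ⟨s, hs1, hs2, hs3⟩ := exists_step_of_not_rot _ (by cases i <;> simpa) p.2 h1 h2
      refine ⟨s :: r, by simp [hr], ⟨hs1, hs2, ?_⟩, fun z => ⟨_, hch z, ?_⟩⟩
      · cases i <;> simpa using hA
      · simpa using hs3 _

/-- A nonempty alternating word is not a rotation. -/
theorem word_ne_rot (k l : ℕ) (hk : 0 < k) (hl : 0 < l) (hne : k ≠ l)
    (L : List (Bool × Equiv.Perm Circle)) (hL0 : L ≠ [])
    (hL : ∀ p ∈ L, p.2 ∈ liftGroup (cond p.1 k l) ∧ ¬ ∃ c : Circle, ∀ z, p.2 z = c * z)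
    (hc : L.IsChain (fun p q => p.1 ≠ q.1)) (c : Circle) :
    ¬ ∀ z : Circle, (L.map Prod.snd).prod z = c * z := by
  intro h
  obtain ⟨p, L', rfl⟩ := List.exists_cons_of_ne_nil hL0
  obtain ⟨r, hr, hA, hch⟩ := exists_steps k l hk hl (p :: L') p.1 hL hc (by simp)
  refine not_forall_chain _ _ (by cases p.1 <;> simpa) (by cases p.1 <;> simpa)
    (by cases p.1 <;> simp [hne, hne.symm]) r (by rintro rfl; simp at hr) hA c ?_
  intro z
  have := hch z
  rwa [h z, Circle.coe_mul] at this

end Pool.Agent.MP_8b9c46_al
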