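import Mathlib

set_option autoImplicit false

/-!
Power series and complex number lemmas for the amalgam theorem.
-/

namespace Pool.Agent.MP_8b9c46_al

open Polynomial ComplexConjugate

/-- Roots of units in the power series ring, with prescribed constant term. -/
theorem exists_root_unit (n : ℕ) (hn : 0 < n) (u : PowerSeries ℂ) (c : ℂ) (hc : c ≠ 0)
    (h : c ^ n = PowerSeries.constantCoeff u) :
    ∃ y : PowerSeries ℂ, y ^ n = u ∧ PowerSeries.constantCoeff y = c := by
  have hH : HenselianRing (PowerSeries ℂ) (Ideal.span {PowerSeries.X}) := inferInstance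
  have hmon : (X ^ n - C u : (PowerSeries ℂ)[X]).Monic := monic_X_pow_sub_C u hn.ne'
  obtain ⟨y, hy, hy'⟩ := hH.is_henselian (X ^ n - C u) hmon (PowerSeries.C c) (by
      rw [Ideal.mem_span_singleton, PowerSeries.X_dvd_iff]
      simp [h]) (by
      apply IsUnit.map
      rw [PowerSeries.isUnit_iff_constantCoeff]
      simp [derivative_pow, hn.ne', hc])
  refine ⟨y, ?_, ?_⟩
  · simpa [sub_eq_zero] using hy
  · rw [Ideal.mem_span_singleton, PowerSeries.X_dvd_iff] at hy'
    simpa [sub_eq_zero] using hy'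

/-- After the substitution of `X ^ n` for `X`, every series has an `n`-th root. -/
theorem exists_root_expand (n : ℕ) (hn : 0 < n) (u : PowerSeries ℂ) (c : ℂ)
    (h : c ^ n = PowerSeries.constantCoeff u) :
    ∃ y : PowerSeries ℂ, y ^ n = PowerSeries.expand n hn.ne' u ∧
      PowerSeries.constantCoeff y = c := by
  by_cases hc : c = 0
  · subst hc
    by_cases hu : u = 0
    · exact ⟨0, by simp [hu, hn.ne'], by simp⟩
    have h0 : PowerSeries.constantCoeff u = 0 := by rw [← h]; simp [hn.ne']
    set w := PowerSeries.divXPowOrder u with hw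
    have hw0 : PowerSeries.constantCoeff w ≠ 0 := by
      rw [hw]
      exact PowerSeries.constantCoeff_divXPowOrder_eq_zero_iff.not.mpr hu
    have hfac : PowerSeries.X ^ u.order.toNat * w = u := PowerSeries.X_pow_order_mul_divXPowOrder
    obtain ⟨d, hd⟩ := IsAlgClosed.exists_pow_nat_eq (PowerSeries.constantCoeff w) hn
    have hd0 : d ≠ 0 := by
      rintro rfl
      apply hw0
      rw [← hd]; simp [hn.ne']
    obtain ⟨y, hy, -⟩ := exists_root_unit n hn (PowerSeries.expand n hn.ne' w) d hd0 (by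
      rw [PowerSeries.constantCoeff_expand, hd])
    have hr : u.order.toNat ≠ 0 := by
      intro hr
      rw [hr] at hfac
      apply hw0
      rw [← h0, ← hfac]; simp
    refine ⟨PowerSeries.X ^ u.order.toNat * y, ?_, ?_⟩
    · rw [mul_pow, hy]
      conv_rhs => rw [← hfac]
      rw [map_mul, map_pow, PowerSeries.expand_X, ← pow_mul, ← pow_mul, mul_comm n]
    · simp [hr]
  · exact exists_root_unit n hn _ c hc (by rw [PowerSeries.constantCoeff_expand, h])

/-- No `k`-th root of `X ^ (N * r)` in the fraction field unless `k` divides `N * r`. -/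
theorem dvd_of_pow_eq (k m : ℕ) (c : FractionRing (PowerSeries ℂ))
    (h : c ^ k = algebraMap (PowerSeries ℂ) _ (PowerSeries.X ^ m)) : k ∣ m := by
  obtain ⟨p, q, hq, rfl⟩ := IsFractionRing.div_surjective (A := PowerSeries ℂ) c
  have hq0 : q ≠ 0 := nonZeroDivisors.ne_zero hq
  have hq1 : algebraMap (PowerSeries ℂ) (FractionRing (PowerSeries ℂ)) q ≠ 0 := by
    simpa using hq0
  have h2 : p ^ k = PowerSeries.X ^ m * q ^ k := by
    apply IsFractionRing.injective (PowerSeries ℂ) (FractionRing (PowerSeries ℂ))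
    rw [map_mul, ← h, div_pow, map_pow, map_pow]
    field_simp
  rcases Nat.eq_zero_or_pos k with rfl | hk
  · have := congrArg PowerSeries.order h2
    simp at this
    simp only [zero_dvd_iff]
    exact_mod_cast this.symm
  have hp0 : p ≠ 0 := by
    rintro rfl
    have : (PowerSeries.X : PowerSeries ℂ) ^ m * q ^ k ≠ 0 :=
      mul_ne_zero (pow_ne_zero _ PowerSeries.X_ne_zero) (pow_ne_zero _ hq0)
    apply this
    rw [← h2]; simp [hk.ne']
  have h3 := congrArg PowerSeries.order h2
  rw [PowerSeries.order_mul, PowerSeries.order_pow, PowerSeries.order_pow, PowerSeries.order_pow,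
    PowerSeries.order_X] at h3
  obtain ⟨i, hi⟩ := ENat.ne_top_iff_exists.mp (PowerSeries.order_eq_top.not.mpr hp0)
  obtain ⟨j, hj⟩ := ENat.ne_top_iff_exists.mp (PowerSeries.order_eq_top.not.mpr hq0)
  rw [← hi, ← hj] at h3
  have h4 : k * i = m + k * j := by
    simp only [nsmul_eq_mul, mul_one] at h3
    exact_mod_cast h3
  have : k ∣ m + k * j := h4 ▸ dvd_mul_right k i
  exact (Nat.dvd_add_left (dvd_mul_right k j)).mp this

/-- Irreducibility of `X ^ k - B` when no proper power of `B` is a `k`-th power. -/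
theorem irreducible_X_pow_sub_C {K : Type*} [Field K] (k : ℕ) (hk : 0 < k) (B : K)
    (h : ∀ r : ℕ, 0 < r → r < k → ∀ c : K, c ^ k ≠ B ^ r) :
    Irreducible (X ^ k - C B) := by
  have hne : (X ^ k - C B : K[X]) ≠ 0 := X_pow_sub_C_ne_zero hk B
  have hdeg : (X ^ k - C B : K[X]).natDegree = k := natDegree_X_pow_sub_C
  have hnu : ¬ IsUnit (X ^ k - C B : K[X]) := by
    intro hu
    have := natDegree_eq_zero_of_isUnit hu
    omega
  obtain ⟨g, hg, hgd⟩ := WfDvdMonoid.exists_irreducible_factor hnu hne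
  have : Fact (Irreducible g) := ⟨hg⟩
  have hroot : (AdjoinRoot.root g) ^ k = algebraMap K _ B := by
    have h1 : AdjoinRoot.mk g (X ^ k - C B) = 0 := AdjoinRoot.mk_eq_zero.mpr hgd
    simpa [sub_eq_zero] using h1
  have hfin : Module.finrank K (AdjoinRoot g) = g.natDegree :=
    (AdjoinRoot.powerBasis hg.ne_zero).finrank
  have hnorm : (Algebra.norm K (AdjoinRoot.root g)) ^ k = B ^ g.natDegree := by
    rw [← map_pow, hroot, Algebra.norm_algebraMap, hfin]
  have hpos : 0 < g.natDegree := hg.natDegree_pos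
  have hge : k ≤ g.natDegree := by
    by_contra hlt
    exact h _ hpos (by omega) _ hnorm
  have hass : Associated g (X ^ k - C B) := by
    apply associated_of_dvd_of_natDegree_le hgd hne
    rw [hdeg]; exact hge
  exact hass.irreducible hg

/-- The inverse disc automorphism on complex numbers. -/
noncomputable def minv (a b w : ℂ) : ℂ := (conj a * w - b) / (a - conj b * w)

theorem norm_lt_of_normSq {a b : ℂ} (h : Complex.normSq a - Complex.normSq b = 1) :
    ‖b‖ < ‖a‖ := by
  rw [Complex.normSq_eq_norm_sq, Complex.normSq_eq_norm_sq] at h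
  have := norm_nonneg a
  have := norm_nonneg b
  nlinarith

theorem den_ne_zero {a b w : ℂ} (h : Complex.normSq a - Complex.normSq b = 1) (hw : ‖w‖ ≤ 1) :
    a - conj b * w ≠ 0 := by
  intro h0
  have h1 : a = conj b * w := by linear_combination h0
  have h2 := norm_lt_of_normSq h
  have h3 : ‖a‖ = ‖b‖ * ‖w‖ := by rw [h1]; simp
  have := norm_nonneg b
  nlinarith

theorem norm_minv_lt {a b w : ℂ} (h : Complex.normSq a - Complex.normSq b = 1) (hw : ‖w‖ < 1) :
    ‖minv a b w‖ < 1 := by
  have hd := den_ne_zero h hw.le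
  unfold minv
  rw [norm_div, div_lt_one (norm_pos_iff.mpr hd)]
  have key : Complex.normSq (a - conj b * w) - Complex.normSq (conj a * w - b)
      = (Complex.normSq a - Complex.normSq b) * (1 - Complex.normSq w) := by
    simp only [Complex.normSq_apply, Complex.sub_re, Complex.sub_im, Complex.mul_re,
      Complex.mul_im, Complex.conj_re, Complex.conj_im]
    ring
  rw [h, Complex.normSq_eq_norm_sq, Complex.normSq_eq_norm_sq, Complex.normSq_eq_norm_sq] at key
  have h1 := norm_nonneg w
  have h2 := norm_nonneg (a - conj b * w)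
  have h3 := norm_nonneg (conj a * w - b)
  have h4 : 0 < 1 - ‖w‖ ^ 2 := by nlinarith
  nlinarith

/-- A disc automorphism that is not a rotation does not carry the `k`-th roots of `u` to the
`k`-th roots of `β`. -/
theorem exists_root_minv_pow_ne (k : ℕ) (hk : 2 ≤ k) {a b u β : ℂ}
    (h : Complex.normSq a - Complex.normSq b = 1) (hb : b ≠ 0) (hu : u ≠ 0) (hu1 : ‖u‖ < 1)
    (hβ : ‖β‖ < 1) : ∃ c : ℂ, c ^ k = u ∧ (minv a b c) ^ k ≠ β := by
  by_contra hcon
  push Not at hcon
  have hk0 : 0 < k := by omega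
  set Q : ℂ[X] := (C (conj a) - C b * X) ^ k - C β * (C a * X - C (conj b)) ^ k with hQ
  have hQdeg : Q.natDegree ≤ k := by
    rw [hQ]
    refine (natDegree_sub_le _ _).trans (max_le ?_ ?_)
    · refine natDegree_pow_le.trans ?_
      have : (C (conj a) - C b * X : ℂ[X]).natDegree ≤ 1 := by compute_degree
      nlinarith
    · refine (natDegree_C_mul_le _ _).trans (natDegree_pow_le.trans ?_)
      have : (C a * X - C (conj b) : ℂ[X]).natDegree ≤ 1 := by compute_degree
      nlinarith
  have hroot : ∀ y : ℂ, y ^ k = u⁻¹ → Q.eval y = 0 := by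
    intro y hy
    have hy0 : y ≠ 0 := by
      rintro rfl
      rw [zero_pow hk0.ne'] at hy
      exact (inv_ne_zero hu) hy.symm
    have hc : (y⁻¹) ^ k = u := by rw [inv_pow, hy, inv_inv]
    have hc1 : ‖y⁻¹‖ ≤ 1 := by
      by_contra hh
      push Not at hh
      have : 1 ≤ ‖y⁻¹‖ ^ k := one_le_pow₀ hh.le
      rw [← norm_pow, hc] at this
      linarith
    have hd := den_ne_zero h hc1
    have h1 := hcon _ hc
    have h2 : minv a b y⁻¹ * (a * y - conj b) = conj a - b * y := by
      unfold minv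
      have : a * y - conj b = y * (a - conj b * y⁻¹) := by field_simp
      rw [this, mul_comm y, ← mul_assoc, div_mul_cancel₀ _ hd]
      field_simp
    simp only [hQ, eval_sub, eval_pow, eval_mul, eval_C, eval_X]
    rw [← h2, mul_pow, h1, sub_self]
  have hder2 : Q.derivative.eval 0 =
      -(k : ℂ) * ((conj a) ^ (k - 1) * b + β * (-conj b) ^ (k - 1) * a) := by
    rw [hQ]
    simp [derivative_pow]
    ring
  clear_value Q
  set P : ℂ[X] := Q - C (Q.coeff k) * (X ^ k - C u⁻¹) with hP
  have hPdeg : P.degree < k := by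
    rw [degree_lt_iff_coeff_zero]
    intro m hm
    have hm' : k ≤ m := by exact_mod_cast hm
    rw [hP, coeff_sub, coeff_C_mul, coeff_sub, coeff_X_pow, coeff_C]
    rcases hm'.eq_or_lt with rfl | hlt
    · simp [hk0.ne']
    · rw [coeff_eq_zero_of_natDegree_lt (by omega), if_neg (by omega), if_neg (by omega)]
      simp
  have hζ := Complex.isPrimitiveRoot_exp k hk0.ne'
  have hP0 : P = 0 := by
    apply eq_zero_of_degree_lt_of_eval_finset_eq_zero (nthRootsFinset k u⁻¹)
    · obtain ⟨α, hα⟩ := IsAlgClosed.exists_pow_nat_eq u⁻¹ hk0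
      have hcard : (nthRootsFinset k u⁻¹).card = k := by
        rw [nthRootsFinset_def, Multiset.toFinset_card_of_nodup
          (hζ.nthRoots_nodup (inv_ne_zero hu)), hζ.card_nthRoots, if_pos ⟨α, hα⟩]
      rw [hcard]; exact hPdeg
    · intro y hy
      rw [mem_nthRootsFinset hk0] at hy
      simp [hP, hroot y hy, hy]
  have hQ' : Q = C (Q.coeff k) * (X ^ k - C u⁻¹) := by
    rw [hP, sub_eq_zero] at hP0; exact hP0
  have hder : Q.derivative.eval 0 = 0 := by
    rw [hQ']
    simp [derivative_pow, show k - 1 ≠ 0 by omega]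
  rw [hder2] at hder
  have hkc : (k : ℂ) ≠ 0 := by exact_mod_cast hk0.ne'
  have h3 : (conj a) ^ (k - 1) * b = -(β * (-conj b) ^ (k - 1) * a) := by
    have := (mul_eq_zero.mp hder).resolve_left (neg_ne_zero.mpr hkc)
    linear_combination this
  have h4 := congrArg norm h3
  simp only [norm_mul, norm_pow, norm_neg, RCLike.norm_conj] at h4
  obtain ⟨j, rfl⟩ : ∃ j, k = j + 2 := ⟨k - 2, by omega⟩
  simp only [show j + 2 - 1 = j + 1 by omega] at h4
  have hba := norm_lt_of_normSq h
  have hb0 : 0 < ‖b‖ := norm_pos_iff.mpr hb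
  have ha0 : 0 < ‖a‖ := hb0.trans hba
  have h5 : ‖a‖ ^ j = ‖β‖ * ‖b‖ ^ j := by
    have : ‖a‖ ^ j * (‖a‖ * ‖b‖) = ‖β‖ * ‖b‖ ^ j * (‖a‖ * ‖b‖) := by
      rw [pow_succ, pow_succ] at h4; linear_combination h4
    exact mul_right_cancel₀ (by positivity) this
  have h6 : ‖b‖ ^ j ≤ ‖a‖ ^ j := pow_le_pow_left₀ hb0.le hba.le j
  have h7 : 0 < ‖b‖ ^ j := by positivity
  have h8 := norm_nonneg β
  nlinarith

/-- The choice of constant terms for two consecutive backward steps. -/
theorem exists_consts (k l : ℕ) (hk : 2 ≤ k) (hl : 0 < l) (hkl : Nat.Coprime k l) {a b u β : ℂ}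
    (h : Complex.normSq a - Complex.normSq b = 1) (hb : b ≠ 0) (hu : u ≠ 0) (hu1 : ‖u‖ < 1)
    (hβ0 : β ≠ 0) (hβ : ‖β‖ < 1) :
    ∃ c c' : ℂ, c ^ k = u ∧ c' ^ l = minv a b (c ^ l) ∧ c' ^ k ≠ β := by
  rcases Nat.lt_or_ge 1 l with hl2 | hl1
  · obtain ⟨c, hc⟩ := IsAlgClosed.exists_pow_nat_eq u (by omega : 0 < k)
    obtain ⟨d, hd⟩ := IsAlgClosed.exists_pow_nat_eq (minv a b (c ^ l)) hl
    by_cases hdk : d ^ k = β
    · have hζ := Complex.isPrimitiveRoot_exp l hl.ne'
      set ζ := Complex.exp (2 * Real.pi * Complex.I / l) with hζdef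
      refine ⟨c, ζ * d, hc, by rw [mul_pow, hζ.pow_eq_one, one_mul, hd], ?_⟩
      rw [mul_pow, hdk]
      intro h1
      have h2 : ζ ^ k = 1 := by
        have : (ζ ^ k - 1) * β = 0 := by linear_combination h1
        have := (mul_eq_zero.mp this).resolve_right hβ0
        linear_combination this
      have h3 : l ∣ k := (hζ.pow_eq_one_iff_dvd k).mp h2
      have h4 : l = 1 := Nat.Coprime.eq_one_of_dvd hkl.symm h3
      omega
    · exact ⟨c, d, hc, hd, hdk⟩
  · obtain rfl : l = 1 := by omega
    obtain ⟨c, hc, hc'⟩ := exists_root_minv_pow_ne k hk h hb hu hu1 hβ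
    exact ⟨c, minv a b c, hc, by simp, hc'⟩

end Pool.Agent.MP_8b9c46_al
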