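import Pool.Agent.MP_8b9c46_al.Series

set_option autoImplicit false

/-!
Chains of the correspondences `y ^ k = (a x ^ k + b) / (conj b x ^ k + conj a)` and the
universal tower of fields attached to an alternating list of them.
-/

namespace Pool.Agent.MP_8b9c46_al

open Polynomial ComplexConjugate

/-- One correspondence: an exponent and the coefficients of a disc automorphism. -/
structure Step where
  κ : ℕ
  a : ℂ
  b : ℂ

/-- The automorphism is normalised and is not a rotation. -/
def Step.Valid (s : Step) : Prop := Complex.normSq s.a - Complex.normSq s.b = 1 ∧ s.b ≠ 0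

/-- `V` is the image of `U` under the automorphism with coefficients `a`, `b`. -/
def RelP {L : Type*} [CommRing L] [Algebra ℂ L] (a b : ℂ) (U V : L) : Prop :=
  V * (algebraMap ℂ L (conj b) * U + algebraMap ℂ L (conj a)) =
    algebraMap ℂ L a * U + algebraMap ℂ L b

/-- `y` corresponds to `x` under the step `s`. -/
def Rel {L : Type*} [CommRing L] [Algebra ℂ L] (s : Step) (x y : L) : Prop :=
  RelP s.a s.b (x ^ s.κ) (y ^ s.κ)

/-- A chain from `x` to `z`; the head of the list is the last step. -/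
def Chain {L : Type*} [CommRing L] [Algebra ℂ L] : List Step → L → L → Prop
  | [], x, z => z = x
  | s :: r, x, z => ∃ y, Chain r x y ∧ Rel s y z

/-- The exponents alternate between `k` and `l`, starting with `k`. -/
def Alt : ℕ → ℕ → List Step → Prop
  | _, _, [] => True
  | k, l, s :: r => s.κ = k ∧ s.Valid ∧ Alt l k r

section maps

variable {L L' : Type*} [CommRing L] [Algebra ℂ L] [CommRing L'] [Algebra ℂ L']

theorem RelP.map (φ : L →ₐ[ℂ] L') {a b : ℂ} {U V : L} (h : RelP a b U V) :
    RelP a b (φ U) (φ V) := by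
  unfold RelP at *
  have := congrArg φ h
  simpa only [map_mul, map_add, AlgHom.commutes] using this

theorem Rel.map (φ : L →ₐ[ℂ] L') {s : Step} {x y : L} (h : Rel s x y) :
    Rel s (φ x) (φ y) := by
  unfold Rel at *
  simpa only [map_pow] using h.map φ

theorem Chain.map (φ : L →ₐ[ℂ] L') : ∀ {r : List Step} {x z : L}, Chain r x z →
    Chain r (φ x) (φ z)
  | [], _, _, h => by
      unfold Chain at *
      rw [h]
  | _ :: _, _, _, h => by
      obtain ⟨y, h1, h2⟩ := h
      exact ⟨φ y, h1.map φ, h2.map φ⟩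

theorem det_eq {a b : ℂ} (h : Complex.normSq a - Complex.normSq b = 1) :
    algebraMap ℂ L a * algebraMap ℂ L (conj a) - algebraMap ℂ L b * algebraMap ℂ L (conj b)
      = 1 := by
  rw [← map_mul, ← map_mul, ← map_sub, Complex.mul_conj, Complex.mul_conj]
  have : ((Complex.normSq a : ℝ) : ℂ) - ((Complex.normSq b : ℝ) : ℂ) = 1 := by
    exact_mod_cast h
  rw [this, map_one]

theorem RelP.symm {a b : ℂ} {U V : L} (h : RelP a b U V) : RelP (conj a) (-b) V U := by
  unfold RelP at *
  simp only [map_neg, Complex.conj_conj]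
  linear_combination (-1 : L) * h

end maps

section fields

variable {L : Type*} [Field L] [Algebra ℂ L]

theorem RelP.den_ne_zero {a b : ℂ} (hab : Complex.normSq a - Complex.normSq b = 1) {U V : L}
    (h : RelP a b U V) : algebraMap ℂ L (conj b) * U + algebraMap ℂ L (conj a) ≠ 0 := by
  intro h0
  unfold RelP at h
  rw [h0, mul_zero] at h
  have hd := det_eq (L := L) hab
  have : (0 : L) = 1 := by
    linear_combination hd - algebraMap ℂ L a * h0 - algebraMap ℂ L (conj b) * h
  exact zero_ne_one this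

theorem RelP.isAlgebraic {a b : ℂ} (hab : Complex.normSq a - Complex.normSq b = 1) {U V : L}
    (h : RelP a b U V) (hU : IsAlgebraic ℂ U) : IsAlgebraic ℂ V := by
  have hd := h.den_ne_zero hab
  have hV : V = (algebraMap ℂ L a * U + algebraMap ℂ L b) *
      (algebraMap ℂ L (conj b) * U + algebraMap ℂ L (conj a))⁻¹ := by
    unfold RelP at h
    rw [← h]; field_simp
  rw [hV]
  exact (((isAlgebraic_algebraMap _).mul hU).add (isAlgebraic_algebraMap _)).mul
    (((isAlgebraic_algebraMap _).mul hU).add (isAlgebraic_algebraMap _)).inv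

theorem RelP.isAlgebraic_iff {a b : ℂ} (hab : Complex.normSq a - Complex.normSq b = 1) {U V : L}
    (h : RelP a b U V) : IsAlgebraic ℂ U ↔ IsAlgebraic ℂ V :=
  ⟨h.isAlgebraic hab, h.symm.isAlgebraic (by simpa using hab)⟩

theorem Rel.isAlgebraic_iff {s : Step} (hs : s.Valid) (hκ : 0 < s.κ) {x y : L}
    (h : Rel s x y) : IsAlgebraic ℂ x ↔ IsAlgebraic ℂ y := by
  have := RelP.isAlgebraic_iff hs.1 h
  constructor
  · intro hx
    exact IsAlgebraic.of_pow hκ (this.mp (hx.pow _))
  · intro hy
    exact IsAlgebraic.of_pow hκ (this.mpr (hy.pow _))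

theorem Chain.isAlgebraic_iff : ∀ {r : List Step} {k l : ℕ}, 0 < k → 0 < l → Alt k l r →
    ∀ {x z : L}, Chain r x z → (IsAlgebraic ℂ x ↔ IsAlgebraic ℂ z)
  | [], _, _, _, _, _, _, _, h => by
      unfold Chain at h
      rw [h]
  | s :: r, k, l, hk, hl, hA, x, z, h => by
      obtain ⟨y, h1, h2⟩ := h
      obtain ⟨hκ, hs, hA'⟩ := hA
      exact (Chain.isAlgebraic_iff hl hk hA' h1).trans (h2.isAlgebraic_iff hs (hκ ▸ hk))

theorem RelP.unique {a b : ℂ} (hab : Complex.normSq a - Complex.normSq b = 1) {U V V' : L}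
    (h : RelP a b U V) (h' : RelP a b U V') : V = V' := by
  have hd := h.den_ne_zero hab
  unfold RelP at h h'
  exact mul_right_cancel₀ hd (h.trans h'.symm)

end fields

/-- One backward step in the power series ring. -/
theorem exists_relP_series {a b : ℂ} (hab : Complex.normSq a - Complex.normSq b = 1)
    (Y : PowerSeries ℂ) (hY : ‖PowerSeries.constantCoeff Y‖ < 1) :
    ∃ V : PowerSeries ℂ, RelP a b V Y ∧
      PowerSeries.constantCoeff V = minv a b (PowerSeries.constantCoeff Y) := by
  have hd := den_ne_zero hab hY.le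
  have hu : IsUnit (PowerSeries.C a - PowerSeries.C (conj b) * Y) := by
    rw [PowerSeries.isUnit_iff_constantCoeff]
    simpa using hd
  obtain ⟨W, hW⟩ := hu.exists_right_inv
  refine ⟨(PowerSeries.C (conj a) * Y - PowerSeries.C b) * W, ?_, ?_⟩
  · unfold RelP
    simp only [PowerSeries.algebraMap_apply, Algebra.algebraMap_self, RingHom.id_apply]
    linear_combination (PowerSeries.C b - PowerSeries.C (conj a) * Y) * hW
  · have h1 := congrArg PowerSeries.constantCoeff hW
    simp only [map_mul, map_sub, PowerSeries.constantCoeff_C, map_one] at h1 ⊢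
    unfold minv
    rw [eq_div_iff hd]
    linear_combination (conj a * PowerSeries.constantCoeff Y - b) * h1

theorem norm_lt_one_of_pow {c : ℂ} {n : ℕ} (h : ‖c ^ n‖ < 1) : ‖c‖ < 1 := by
  by_contra hh
  push Not at hh
  have : 1 ≤ ‖c‖ ^ n := one_le_pow₀ hh
  rw [← norm_pow] at this
  linarith

theorem norm_pow_lt_one {c : ℂ} {n : ℕ} (hn : 0 < n) (h : ‖c‖ < 1) : ‖c ^ n‖ < 1 := by
  rw [norm_pow]
  exact pow_lt_one₀ (norm_nonneg _) h hn.ne'

/-- The backward construction of a chain of power series. -/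
theorem exists_chain_series (k l : ℕ) (hk : 2 ≤ k) (hl : 0 < l) (hkl : Nat.Coprime k l) :
    ∀ (r : List Step), Alt l k r → ∀ u : PowerSeries ℂ, PowerSeries.constantCoeff u ≠ 0 →
      ‖PowerSeries.constantCoeff u‖ < 1 →
      ∃ (N : ℕ) (hN : N ≠ 0), Nat.Coprime k N ∧ ∃ x y : PowerSeries ℂ,
        y ^ k = PowerSeries.expand N hN u ∧ Chain r x y
  | [], _, u, hu, _ => by
      obtain ⟨c, hc⟩ := IsAlgClosed.exists_pow_nat_eq (PowerSeries.constantCoeff u)
        (by omega : 0 < k)
      have hc0 : c ≠ 0 := by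
        rintro rfl
        exact hu (by rw [← hc]; simp; omega)
      obtain ⟨y, hy, -⟩ := exists_root_unit k (by omega) u c hc0 hc
      exact ⟨1, one_ne_zero, by simp, y, y, by simp [hy], rfl⟩
  | [s], hA, u, hu, hu1 => by
      obtain ⟨hκ, hs, -⟩ := hA
      obtain ⟨c, hc⟩ := IsAlgClosed.exists_pow_nat_eq (PowerSeries.constantCoeff u)
        (by omega : 0 < k)
      have hc0 : c ≠ 0 := by
        rintro rfl
        exact hu (by rw [← hc]; simp; omega)
      obtain ⟨y, hy, hyc⟩ := exists_root_unit k (by omega) u c hc0 hc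
      have hc1 : ‖c‖ < 1 := norm_lt_one_of_pow (hc ▸ hu1)
      obtain ⟨V, hV, -⟩ := exists_relP_series hs.1 (y ^ l) (by
        rw [map_pow, hyc]; exact norm_pow_lt_one hl hc1)
      obtain ⟨d, hd⟩ := IsAlgClosed.exists_pow_nat_eq (PowerSeries.constantCoeff V) hl
      obtain ⟨x, hx, -⟩ := exists_root_expand l hl V d hd
      refine ⟨l, hl.ne', hkl, x, PowerSeries.expand l hl.ne' y, by rw [← map_pow, hy], x, rfl, ?_⟩
      unfold Rel
      rw [hκ, hx, ← map_pow]
      exact hV.map _
  | s :: s' :: r, hA, u, hu, hu1 => by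
      obtain ⟨hκ, hs, hκ', hs', hA'⟩ := hA
      have hba := norm_lt_of_normSq hs'.1
      have ha0 : s'.a ≠ 0 := by
        intro h0
        rw [h0, norm_zero] at hba
        exact absurd hba (not_lt.mpr (norm_nonneg _))
      have hca0 : conj s'.a ≠ 0 := by simpa using ha0
      have hβ0 : s'.b / conj s'.a ≠ 0 := div_ne_zero hs'.2 hca0
      have hβ1 : ‖s'.b / conj s'.a‖ < 1 := by
        rw [norm_div, RCLike.norm_conj, div_lt_one (norm_pos_iff.mpr ha0)]
        exact hba
      obtain ⟨c, c', hc, hc', hne⟩ := exists_consts k l hk hl hkl hs.1 hs.2 hu hu1 hβ0 hβ1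
      have hc0 : c ≠ 0 := by
        rintro rfl
        exact hu (by rw [← hc]; simp; omega)
      obtain ⟨y, hy, hyc⟩ := exists_root_unit k (by omega) u c hc0 hc
      have hc1 : ‖c‖ < 1 := norm_lt_one_of_pow (hc ▸ hu1)
      have hcl : ‖c ^ l‖ < 1 := norm_pow_lt_one hl hc1
      obtain ⟨V, hV, hVc⟩ := exists_relP_series hs.1 (y ^ l) (by
        rw [map_pow, hyc]; exact hcl)
      rw [map_pow, hyc] at hVc
      obtain ⟨y', hy', hy'c⟩ := exists_root_expand l hl V c' (by rw [hc', hVc])
      have hc'1 : ‖c'‖ < 1 := norm_lt_one_of_pow (hc' ▸ norm_minv_lt hs.1 hcl)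
      have hc'k : ‖c' ^ k‖ < 1 := norm_pow_lt_one (by omega) hc'1
      obtain ⟨u', hu', hu'c⟩ := exists_relP_series hs'.1 (y' ^ k) (by
        rw [map_pow, hy'c]; exact hc'k)
      rw [map_pow, hy'c] at hu'c
      have hu'0 : PowerSeries.constantCoeff u' ≠ 0 := by
        rw [hu'c]
        unfold minv
        refine div_ne_zero ?_ (den_ne_zero hs'.1 hc'k.le)
        intro h0
        apply hne
        rw [eq_div_iff hca0]
        linear_combination h0
      obtain ⟨N, hN, hkN, x, y'', hy'', hch⟩ := exists_chain_series k l hk hl hkl r hA' u' hu'0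
        (by rw [hu'c]; exact norm_minv_lt hs'.1 hc'k)
      refine ⟨N * l, mul_ne_zero hN hl.ne', Nat.Coprime.mul_right hkN hkl, x,
        PowerSeries.expand N hN (PowerSeries.expand l hl.ne' y), ?_,
        PowerSeries.expand N hN y', ⟨y'', hch, ?_⟩, ?_⟩
      · rw [← map_pow, ← map_pow, hy, PowerSeries.expand_mul]
      · unfold Rel
        rw [hκ', hy'', ← map_pow]
        exact hu'.map _
      · apply Rel.map
        unfold Rel
        rw [hκ, hy', ← map_pow]
        exact hV.map _

/-- The universal property of a tower of fields. -/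
def Universal (r : List Step) : Prop :=
  ∃ (K : Type) (_ : Field K) (_ : Algebra ℂ K) (w₀ w : K), Transcendental ℂ w₀ ∧ Chain r w₀ w ∧
    ∀ (L : Type) [Field L] [Algebra ℂ L] (x y : L), Transcendental ℂ x → Chain r x y →
      ∃ φ : K →ₐ[ℂ] L, φ w₀ = x ∧ φ w = y

theorem universal_nil : Universal [] := by
  refine ⟨RatFunc ℂ, inferInstance, inferInstance, RatFunc.X, RatFunc.X,
    RatFunc.transcendental_X, rfl, ?_⟩
  intro L _ _ x y hx hxy
  have hinj : Function.Injective (aeval x : ℂ[X] →ₐ[ℂ] L) :=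
    transcendental_iff_injective.mp hx
  have hle : nonZeroDivisors ℂ[X] ≤ (nonZeroDivisors L).comap (aeval x : ℂ[X] →ₐ[ℂ] L) :=
    nonZeroDivisors_le_comap_nonZeroDivisors_of_injective _ hinj
  have hX : RatFunc.liftAlgHom (aeval x : ℂ[X] →ₐ[ℂ] L) hle RatFunc.X = x := by
    have := RatFunc.liftAlgHom_apply_div (aeval x : ℂ[X] →ₐ[ℂ] L) hle X 1
    simpa using this
  exact ⟨RatFunc.liftAlgHom (aeval x) hle, hX, by rw [hX]; exact hxy.symm⟩

theorem transcendental_X_pow (N : ℕ) (hN : N ≠ 0) :
    Transcendental ℂ (algebraMap (PowerSeries ℂ) (FractionRing (PowerSeries ℂ))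
      (PowerSeries.X ^ N)) := by
  rw [transcendental_algebraMap_iff (IsFractionRing.injective _ _)]
  apply Transcendental.pow _ (Nat.pos_of_ne_zero hN)
  rw [transcendental_iff_injective]
  intro p q hpq
  have h : ∀ p : ℂ[X], aeval (PowerSeries.X : PowerSeries ℂ) p = (p : PowerSeries ℂ) := by
    intro p
    have : (aeval (PowerSeries.X : PowerSeries ℂ) : ℂ[X] →ₐ[ℂ] PowerSeries ℂ) =
        Polynomial.coeToPowerSeries.algHom ℂ := by
      apply Polynomial.algHom_ext
      simp
    rw [this]
    simp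
  rw [h, h] at hpq
  exact Polynomial.coe_injective ℂ hpq

theorem universal_cons (k l : ℕ) (hk : 0 < k) (hl : 0 < l) (hkl : Nat.Coprime k l) (s : Step)
    (r : List Step) (hA : Alt k l (s :: r)) (hU : Universal r) : Universal (s :: r) := by
  obtain ⟨hκ, hs, hA'⟩ := hA
  obtain ⟨K, _, _, w₀, w, hw₀, hch, huniv⟩ := hU
  have hwt : Transcendental ℂ w := fun h => hw₀ ((Chain.isAlgebraic_iff hl hk hA' hch).mpr h)
  have hden : algebraMap ℂ K (conj s.b) * w ^ k + algebraMap ℂ K (conj s.a) ≠ 0 := by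
    intro h0
    apply hwt
    apply IsAlgebraic.of_pow hk
    have hb : algebraMap ℂ K (conj s.b) ≠ 0 := by
      simpa using hs.2
    have : w ^ k = algebraMap ℂ K (-(conj s.a) / conj s.b) := by
      rw [map_div₀, map_neg, eq_div_iff hb]
      linear_combination h0
    rw [this]
    exact isAlgebraic_algebraMap _
  set B : K := (algebraMap ℂ K s.a * w ^ k + algebraMap ℂ K s.b) /
    (algebraMap ℂ K (conj s.b) * w ^ k + algebraMap ℂ K (conj s.a)) with hB
  have hBrel : RelP s.a s.b (w ^ k) B := by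
    unfold RelP
    rw [hB, div_mul_cancel₀ _ hden]
  clear_value B
  have hirr : Irreducible (X ^ k - C B) := by
    apply irreducible_X_pow_sub_C k hk B
    intro j hj hjk c hc
    have hk2 : 2 ≤ k := by omega
    obtain ⟨u, hu, huc⟩ := exists_relP_series hs.1 (PowerSeries.X : PowerSeries ℂ) (by simp)
    have hba := norm_lt_of_normSq hs.1
    have ha0 : s.a ≠ 0 := by
      intro h0
      rw [h0, norm_zero] at hba
      exact absurd hba (not_lt.mpr (norm_nonneg _))
    rw [PowerSeries.constantCoeff_X] at huc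
    obtain ⟨N, hN, hkN, x, y, hy, hxy⟩ := exists_chain_series k l hk2 hl hkl r hA' u
      (by rw [huc]; simp [minv, ha0, hs.2])
      (by rw [huc]; exact norm_minv_lt hs.1 (by simp))
    set ι := IsScalarTower.toAlgHom ℂ (PowerSeries ℂ) (FractionRing (PowerSeries ℂ)) with hι
    have h1 : RelP s.a s.b (y ^ k) (PowerSeries.X ^ N) := by
      have := hu.map (PowerSeries.expand N hN)
      rwa [← hy, PowerSeries.expand_X] at this
    have h2 := h1.map ι
    have hXt : Transcendental ℂ (ι (PowerSeries.X ^ N)) := transcendental_X_pow N hN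
    have hyt : Transcendental ℂ (ι y) := by
      intro h
      apply hXt
      apply (h2.isAlgebraic_iff hs.1).mp
      rw [map_pow]
      exact h.pow _
    have hxy' := hxy.map ι
    have hxt : Transcendental ℂ (ι x) := fun h =>
      hyt ((Chain.isAlgebraic_iff hl hk hA' hxy').mp h)
    obtain ⟨φ, -, hφ⟩ := huniv _ (ι x) (ι y) hxt hxy'
    have h3 : RelP s.a s.b (ι (y ^ k)) (φ B) := by
      have := hBrel.map φ
      rwa [map_pow, hφ, ← map_pow] at this
    have h4 : φ B = ι (PowerSeries.X ^ N) := h3.unique hs.1 h2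
    have h5 : (φ c) ^ k = algebraMap (PowerSeries ℂ) _ (PowerSeries.X ^ (N * j)) := by
      rw [← map_pow, hc, map_pow, h4, pow_mul, map_pow (algebraMap _ _)]
      rfl
    have h6 : k ∣ N * j := dvd_of_pow_eq k _ _ h5
    have h7 : k ∣ j := hkN.dvd_of_dvd_mul_left h6
    exact absurd (Nat.le_of_dvd hj h7) (by omega)
  have : Fact (Irreducible (X ^ k - C B)) := ⟨hirr⟩
  set ι := IsScalarTower.toAlgHom ℂ K (AdjoinRoot (X ^ k - C B)) with hι
  have hroot : (AdjoinRoot.root (X ^ k - C B)) ^ k = ι B := by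
    have h1 : AdjoinRoot.mk (X ^ k - C B) (X ^ k - C B) = 0 := AdjoinRoot.mk_self
    rw [map_sub, map_pow, AdjoinRoot.mk_X, AdjoinRoot.mk_C, sub_eq_zero] at h1
    exact h1
  refine ⟨AdjoinRoot (X ^ k - C B), inferInstance, inferInstance, ι w₀,
    AdjoinRoot.root (X ^ k - C B), ?_, ⟨ι w, hch.map ι, ?_⟩, ?_⟩
  · exact (transcendental_algebraMap_iff (algebraMap K _).injective).mpr hw₀
  · unfold Rel
    rw [hκ, hroot, ← map_pow]
    exact hBrel.map ι
  · intro L _ _ x z hx hxz
    obtain ⟨y, hxy, hyz⟩ := hxz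
    obtain ⟨φ, hφ0, hφ⟩ := huniv L x y hx hxy
    have h3 : RelP s.a s.b (y ^ k) (φ B) := by
      have := hBrel.map φ
      rwa [map_pow, hφ] at this
    have h4 : z ^ k = φ B := by
      unfold Rel at hyz
      rw [hκ] at hyz
      exact hyz.unique hs.1 h3
    have h5 : (X ^ k - C B).eval₂ (φ : K →+* L) z = 0 := by
      simp [h4]
    refine ⟨AdjoinRoot.liftAlgHom _ φ z h5, ?_, ?_⟩
    · rw [← hφ0]
      simp [hι]
    · simp

theorem universal : ∀ (r : List Step) (k l : ℕ), 0 < k → 0 < l → Nat.Coprime k l → Alt k l r →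
    Universal r
  | [], _, _, _, _, _, _ => universal_nil
  | s :: r, k, l, hk, hl, hkl, hA =>
      universal_cons k l hk hl hkl s r hA (universal r l k hl hk hkl.symm hA.2.2)

/-- The end of a chain whose last exponent is at least two is not a Moebius function of its
start. -/
theorem not_moebius {L : Type} [Field L] [Algebra ℂ L] (k l : ℕ) (hk : 2 ≤ k) (hl : 0 < l)
    (hkl : Nat.Coprime k l) (s : Step) (r : List Step) (hA : Alt k l (s :: r)) (x y : L)
    (hx : Transcendental ℂ x) (hch : Chain (s :: r) x y) (α β γ δ : ℂ)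
    (hne : algebraMap ℂ L α * x + algebraMap ℂ L β ≠ 0)
    (h : y * (algebraMap ℂ L α * x + algebraMap ℂ L β) =
      algebraMap ℂ L γ * x + algebraMap ℂ L δ) : False := by
  have hk0 : 0 < k := by omega
  obtain ⟨K, _, _, w₀, w, -, -, huniv⟩ := universal (s :: r) k l hk0 hl hkl hA
  have hζ := Complex.isPrimitiveRoot_exp k hk0.ne'
  set ζ := Complex.exp (2 * Real.pi * Complex.I / k) with hζdef
  have hch' : Chain (s :: r) x (algebraMap ℂ L ζ * y) := by
    obtain ⟨y', h1, h2⟩ := hch
    refine ⟨y', h1, ?_⟩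
    unfold Rel at h2 ⊢
    rw [mul_pow, ← map_pow, hA.1, hζ.pow_eq_one, map_one, one_mul]
    rw [hA.1] at h2
    exact h2
  obtain ⟨φ, hφ0, hφ⟩ := huniv L x y hx hch
  obtain ⟨ψ, hψ0, hψ⟩ := huniv L x _ hx hch'
  have hK : w * (algebraMap ℂ K α * w₀ + algebraMap ℂ K β) =
      algebraMap ℂ K γ * w₀ + algebraMap ℂ K δ := by
    apply φ.toRingHom.injective
    simpa [hφ0, hφ] using h
  have h2 := congrArg ψ hK
  simp only [map_mul, map_add, AlgHom.commutes, hψ0, hψ] at h2
  have hy0 : y ≠ 0 := by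
    rintro rfl
    exact hx ((Chain.isAlgebraic_iff hk0 hl hA hch).mpr isAlgebraic_zero)
  have h3 : (algebraMap ℂ L ζ - 1) * y * (algebraMap ℂ L α * x + algebraMap ℂ L β) = 0 := by
    linear_combination h2 - h
  have h4 : algebraMap ℂ L ζ - 1 = 0 :=
    (mul_eq_zero.mp ((mul_eq_zero.mp h3).resolve_right hne)).resolve_right hy0
  have h5 : ζ = 1 := by
    apply (algebraMap ℂ L).injective
    rw [map_one]
    linear_combination h4
  exact hζ.ne_one (by omega) h5

/-- A nonempty alternating chain with coprime exponents does not end at a multiple of its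
start. -/
theorem chain_ne_of_coprime {L : Type} [Field L] [Algebra ℂ L] (k l : ℕ) (hk : 0 < k) (hl : 0 < l)
    (hkl : Nat.Coprime k l) (hne : k ≠ l) (r : List Step) (hr : r ≠ []) (hA : Alt k l r)
    (x y : L) (hx : Transcendental ℂ x) (hch : Chain r x y) (c : ℂ) :
    y ≠ algebraMap ℂ L c * x := by
  intro hy
  obtain ⟨s, r, rfl⟩ := List.exists_cons_of_ne_nil hr
  rcases Nat.lt_or_ge 1 k with hk2 | hk1
  · exact not_moebius k l hk2 hl hkl s r hA x y hx hch 0 1 c 0 (by simp) (by simp [hy])
  · obtain rfl : k = 1 := by omega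
    obtain ⟨hκ, hs, hA'⟩ := hA
    obtain ⟨y', h1, h2⟩ := hch
    unfold Rel RelP at h2
    rw [hκ, pow_one, pow_one, hy] at h2
    cases r with
    | nil =>
      unfold Chain at h1
      subst h1
      apply hx
      refine ⟨C (c * conj s.b) * X ^ 2 + C (c * conj s.a - s.a) * X - C s.b, ?_, ?_⟩
      · intro h0
        have := congrArg (fun p : ℂ[X] => p.eval 0) h0
        simp at this
        exact hs.2 this
      · simp only [map_sub, map_add, map_mul, aeval_C, aeval_X, map_pow]
        linear_combination h2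
    | cons s' r' =>
      have hba := norm_lt_of_normSq hs.1
      have ha0 : s.a ≠ 0 := by
        intro h0
        rw [h0, norm_zero] at hba
        exact absurd hba (not_lt.mpr (norm_nonneg _))
      refine not_moebius l 1 (by omega) one_pos hkl.symm s' r' hA' x y' hx h1
        (-(conj s.b * c)) s.a (conj s.a * c) (-s.b) ?_ ?_
      · intro h0
        apply hx
        refine ⟨C (-(conj s.b * c)) * X + C s.a, ?_, ?_⟩
        · intro h0
          have := congrArg (fun p : ℂ[X] => p.eval 0) h0
          simp at this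
          exact ha0 this
        · simpa only [map_add, map_mul, aeval_C, aeval_X] using h0
      · simp only [map_neg, map_mul]
        linear_combination (-1 : L) * h2

/-- Dividing the exponent of a step. -/
def Step.dv (d : ℕ) (s : Step) : Step := ⟨s.κ / d, s.a, s.b⟩

theorem Alt.dv (d : ℕ) : ∀ {r : List Step} {k l : ℕ}, Alt k l r →
    Alt (k / d) (l / d) (r.map (Step.dv d))
  | [], _, _, _ => trivial
  | _ :: _, _, _, h => ⟨by rw [← h.1]; rfl, h.2.1, h.2.2.dv d⟩

theorem Chain.dv {L : Type*} [CommRing L] [Algebra ℂ L] (d : ℕ) : ∀ {r : List Step} {k l : ℕ},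
    d ∣ k → d ∣ l → Alt k l r → ∀ {x y : L}, Chain r x y →
    Chain (r.map (Step.dv d)) (x ^ d) (y ^ d)
  | [], _, _, _, _, _, _, _, h => by
      unfold Chain at h
      subst h
      rfl
  | s :: r, k, l, hk, hl, hA, x, z, h => by
      obtain ⟨y, h1, h2⟩ := h
      refine ⟨y ^ d, Chain.dv d hl hk hA.2.2 h1, ?_⟩
      unfold Rel at h2 ⊢
      have : d * (s.κ / d) = s.κ := Nat.mul_div_cancel' (hA.1 ▸ hk)
      simp only [Step.dv, ← pow_mul, this]
      exact h2

/-- A nonempty alternating chain does not end at a multiple of its start. -/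
theorem chain_ne {L : Type} [Field L] [Algebra ℂ L] (k l : ℕ) (hk : 0 < k) (hl : 0 < l)
    (hne : k ≠ l) (r : List Step) (hr : r ≠ []) (hA : Alt k l r)
    (x y : L) (hx : Transcendental ℂ x) (hch : Chain r x y) (c : ℂ) :
    y ≠ algebraMap ℂ L c * x := by
  intro hy
  have hd : 0 < Nat.gcd k l := Nat.gcd_pos_of_pos_left l hk
  have h1 := Nat.gcd_dvd_left k l
  have h2 := Nat.gcd_dvd_right k l
  refine chain_ne_of_coprime (k / Nat.gcd k l) (l / Nat.gcd k l)
    (Nat.div_pos (Nat.le_of_dvd hk h1) hd) (Nat.div_pos (Nat.le_of_dvd hl h2) hd)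
    (Nat.coprime_div_gcd_div_gcd hd) ?_ (r.map (Step.dv _)) (by simpa using hr) (hA.dv _)
    (x ^ Nat.gcd k l) (y ^ Nat.gcd k l) (hx.pow hd) (Chain.dv _ h1 h2 hA hch)
    (c ^ Nat.gcd k l) ?_
  · intro h
    apply hne
    calc k = Nat.gcd k l * (k / Nat.gcd k l) := (Nat.mul_div_cancel' h1).symm
      _ = Nat.gcd k l * (l / Nat.gcd k l) := by rw [h]
      _ = l := Nat.mul_div_cancel' h2
  · rw [hy, mul_pow, map_pow]

end Pool.Agent.MP_8b9c46_al
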